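import Pool.Agent.helper96.DP.API
import Pool.Agent.helper96.DP.Basic

/-!
# Basic facts on adjacency and connections (project dp, part A)
-/

namespace DP

theorem adj_iff {u v : V} : Adj u v ↔
    (u.1 - v.1 ≤ 1 ∧ v.1 - u.1 ≤ 1 ∧ u.2 - v.2 ≤ 1 ∧ v.2 - u.2 ≤ 1) ∧ ¬ (u.1 = v.1 ∧ u.2 = v.2) ∧
      (u.1 = v.1 ∨ u.2 = v.2 ∨ (u.1 + u.2) % 2 = 0) := by
  unfold Adj sd
  rw [Int.even_iff]
  omega

theorem Adj.sd_le' {u v : V} (h : Adj u v) (x : V) : DP.sd x v ≤ DP.sd x u + 1 := h.symm.sd_le x

theorem Con.step {W : Set V} {u v w : V} (h : Con W u v) (h' : Adj v w) (hw : w ∈ W) :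
    Con W u w :=
  ⟨h.1, h.2.tail ⟨h', hw⟩⟩

/-- Induction along a connection: a property which holds at `u` and is transported along the
adjacent pairs of sites of `W` holds at `v`. -/
theorem Con.induct' {W : Set V} {u v : V} (h : Con W u v) (P : V → Prop) (h0 : P u)
    (hs : ∀ a b, a ∈ W → b ∈ W → Adj a b → P a → P b) : P v :=
  h.induct P h0 fun a b ha hb hab _ hP => hs a b ha hb hab hP

/-- A connection which is not contained in `W'` leaves it. -/
theorem Con.exit' {W : Set V} {u v : V} (h : Con W u v) (W' : Set V) (hu : u ∈ W')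
    (hv : v ∉ W') : ∃ a b, Con (W ∩ W') u a ∧ b ∈ W ∧ b ∉ W' ∧ Adj a b := by
  by_contra hcon
  push Not at hcon
  have : Con (W ∩ W') u v := by
    refine h.induct' (fun z => Con (W ∩ W') u z) (Con.refl ⟨h.1, hu⟩) fun a b _ hb hab hP => ?_
    by_cases hbW : b ∈ W'
    · exact hP.step hab ⟨hb, hbW⟩
    · exact absurd hab (hcon a b hP hb hbW)
  exact hv this.mem_right.2

/-- Last exit: a connection from `Z` to the outside of `Z` contains a part outside `Z` which starts
next to a site of `Z`. -/
theorem Con.last_exit {W : Set V} {u v : V} (h : Con W u v) (Z : Set V) (hu : u ∈ Z)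
    (hv : v ∉ Z) : ∃ a b, a ∈ W ∧ a ∈ Z ∧ Adj a b ∧ Con (W \ Z) b v ∧ Con W u a := by
  obtain ⟨b, a, h1, h2, h3, h4⟩ := h.symm.exit' Zᶜ hv (by simpa using hu)
  refine ⟨a, b, h2, by simpa using h3, h4.symm, ?_, ?_⟩
  · refine h1.symm.mono ?_
    rintro z ⟨hz1, hz2⟩
    exact ⟨hz1, hz2⟩
  · have h5 : Con W b v := h1.symm.mono Set.inter_subset_left
    exact (h.trans h5.symm).step h4 h2

/-- The sites connected to `u` form a connected set. -/
theorem Con.cluster {W : Set V} {u v : V} (h : Con W u v) : Con {z | Con W u z} u v := by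
  refine h.induct' (fun z => Con {z | Con W u z} u z) (Con.refl (Con.refl h.1))
    fun a b _ hb hab hP => hP.step hab ?_
  exact Con.step hP.mem_right hab hb

/-! ### Lists -/

theorem IsPath.con_mem {W : Set V} {l : List V} {u v : V} (h : IsPath W l u v) :
    ∀ w ∈ l, Con W u w := by
  obtain ⟨h1, -, h3, h4⟩ := h
  induction l generalizing u with
  | nil => simp
  | cons a l ih =>
    simp only [List.head?_cons, Option.some.injEq] at h1
    subst h1
    intro w hw
    rcases List.mem_cons.1 hw with rfl | hw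
    · exact Con.refl (h4 _ (by simp))
    · cases l with
      | nil => simp at hw
      | cons b l =>
        rw [List.isChain_cons_cons] at h3
        have := ih (u := b) (by simp) h3.2 (fun w hw => h4 w (List.mem_cons_of_mem _ hw)) w hw
        exact (Con.single (h4 _ (by simp)) h3.1 (h4 _ (by simp))).trans this

theorem IsPath.con' {W : Set V} {l : List V} {u v : V} (h : IsPath W l u v) : Con W u v := h.con

theorem Con.exists_path' {W : Set V} {u v : V} (h : Con W u v) : ∃ l, IsPath W l u v :=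
  let ⟨l, hl, _⟩ := h.exists_path
  ⟨l, hl⟩

/-! ### Straight segments -/

theorem con_vert {W : Set V} (i j j' : ℤ) (hj : j ≤ j') (h : ∀ t, j ≤ t → t ≤ j' → (i, t) ∈ W) :
    Con W (i, j) (i, j') := by
  obtain ⟨n, rfl⟩ := Int.le.dest hj
  induction n with
  | zero => simpa using Con.refl (h j le_rfl (by omega))
  | succ n ih =>
    refine (ih (by omega) fun t h1 h2 => h t h1 (by push_cast; omega)).step ?_
      (h _ (by omega) le_rfl)
    rw [adj_iff]
    refine ⟨⟨by simp, by simp, by push_cast; omega, by push_cast; omega⟩, ?_, Or.inl rfl⟩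
    push_cast
    rintro ⟨-, h2⟩
    omega

theorem con_horiz {W : Set V} (j i i' : ℤ) (hi : i ≤ i') (h : ∀ t, i ≤ t → t ≤ i' → (t, j) ∈ W) :
    Con W (i, j) (i', j) := by
  obtain ⟨n, rfl⟩ := Int.le.dest hi
  induction n with
  | zero => simpa using Con.refl (h i le_rfl (by omega))
  | succ n ih =>
    refine (ih (by omega) fun t h1 h2 => h t h1 (by push_cast; omega)).step ?_
      (h _ (by omega) le_rfl)
    rw [adj_iff]
    refine ⟨⟨by push_cast; omega, by push_cast; omega, by simp, by simp⟩, ?_, Or.inr (Or.inl rfl)⟩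
    push_cast
    rintro ⟨h2, -⟩
    omega

end DP
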