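import Pool.Agent.helper61.DP.Base

/-!
# Part A of the project dp: intermediate statements of the planar toolbox

The modules prove `theorem XX : XX_stmt` or `theorem XX (h : YY_stmt) ... : XX_stmt`; the final
statements LH LC LN RC HX FI FO IF OF OT QO QI TO TI EX are in `helper96/DP/API.lean`.
-/

namespace DP

open Classical in
/-- Indicator of a proposition as a natural number. -/
noncomputable def i01 (p : Prop) : ℕ := if p then 1 else 0

/-- `w` is in the column of `z`, strictly above `z`. -/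
def above (z w : V) : Prop := w.1 = z.1 ∧ z.2 < w.2

/-! ## Connectivity of boxes, exteriors, neighbours -/

/-- CX. Boxes and exteriors are connected; inner and outer neighbours exist. -/
def CX_stmt : Prop :=
  (∀ (x : V) (n : ℕ) (u v : V), u ∈ box x n → v ∈ box x n → Con (box x n) u v) ∧
  (∀ (x : V) (n : ℕ) (u v : V), 1 ≤ n → n ≤ sd x u → n ≤ sd x v →
    Con {w | n ≤ sd x w} u v) ∧
  (∀ (x : V) (n : ℕ) (u : V), Even (x.1 + x.2) → u ∈ bd x (n + 1) → ∃ u' ∈ bd x n, Adj u u') ∧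
  (∀ (x : V) (n : ℕ) (u : V), Even (x.1 + x.2) → u ∈ bd x n → ∃ u' ∈ bd x (n + 1), Adj u u')

/-! ## Winding parity -/

/-- UV. Vertical move: the number of steps crossing the half line above does not change. -/
def UV_stmt : Prop :=
  ∀ (l : List V) (z z' : V), z'.1 = z.1 → z'.2 = z.2 + 1 → z' ∉ l → upCross z l = upCross z' l

/-- UH. Move to the next column. -/
def UH_stmt : Prop :=
  ∀ (l : List V) (b d z z' : V), l.head? = some b → l.getLast? = some d → l.IsChain Adj →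
    Adj z z' → z'.1 = z.1 + 1 → z ∉ l → z' ∉ l →
      (upCross z l + upCross z' l + i01 (above z' b) + i01 (above z' d)) % 2 = 0

/-- Potential inside the box of radius `r`, `p` on its boundary. -/
noncomputable def kap (x : V) (r : ℕ) (p z : V) : ℕ :=
  if p.2 = x.2 + r then i01 (p.1 ≤ z.1)
  else if p.1 = x.1 + r then i01 (z.1 = p.1 ∧ z.2 < p.2) else 0

/-- Potential outside the box of radius `r`, `p` on its boundary. -/
noncomputable def hap (x : V) (r : ℕ) (p z : V) : ℕ :=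
  if z.1 = x.1 - r then i01 (p.1 = z.1 ∧ z.2 < p.2)
  else i01 (z.2 < x.2 ∧ x.1 - r < z.1 ∧ z.1 < p.1)

/-- KP. The two potentials. -/
def KP_stmt : Prop :=
  (∀ (x : V) (r : ℕ) (p z z' : V), p ∈ bd x r → z ∈ box x r → z' ∈ box x r → Adj z z' →
    p ≠ z → p ≠ z' →
      ((z'.1 = z.1 → kap x r p z = kap x r p z') ∧
        (z'.1 = z.1 + 1 → (kap x r p z + kap x r p z' + i01 (above z' p)) % 2 = 0))) ∧
  (∀ (x : V) (r : ℕ) (p z z' : V), Even (x.1 + x.2) → 1 ≤ r → p ∈ bd x r → r ≤ sd x z →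
    r ≤ sd x z' → Adj z z' → p ≠ z → p ≠ z' →
      ((z'.1 = z.1 → hap x r p z = hap x r p z') ∧
        (z'.1 = z.1 + 1 → (hap x r p z + hap x r p z' + i01 (above z' p) +
          i01 (z.1 = x.1 - r ∧ z'.2 ≤ x.2 - r)) % 2 = 0))) ∧
  (∀ (x : V) (r : ℕ) (a b c d : V), 1 ≤ r → alt x r a b c d →
    (kap x r b a + kap x r d a + kap x r b c + kap x r d c +
      hap x r b a + hap x r d a + hap x r b c + hap x r d c) % 2 = 1)

/-- JS (Jordan). `W₁` joins `a`, `c` inside, `W₂` joins `a`, `c` outside, `W` joins `b`, `d`. -/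
def JS_stmt : Prop :=
  ∀ (x : V) (r : ℕ) (a b c d : V) (W₁ W₂ W : Set V), Even (x.1 + x.2) → 1 ≤ r →
    alt x r a b c d → W₁ ⊆ box x r → W₂ ⊆ {v | r ≤ sd x v} → Con W₁ a c → Con W₂ a c →
      Con W b d → ((W₁ ∪ W₂) ∩ W).Nonempty

/-- SI. Alternating points of a circle are not connected disjointly inside. -/
def SI_stmt : Prop :=
  ∀ (x : V) (r : ℕ) (a b c d : V) (W W' : Set V), Even (x.1 + x.2) → 1 ≤ r →
    alt x r a b c d → W ⊆ box x r → W' ⊆ box x r → Con W a c → Con W' b d → (W ∩ W').Nonempty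

/-- SO. Alternating points of a circle are not connected disjointly outside. -/
def SO_stmt : Prop :=
  ∀ (x : V) (r : ℕ) (a b c d : V) (W W' : Set V), Even (x.1 + x.2) → 1 ≤ r →
    alt x r a b c d → W ⊆ {v | r ≤ sd x v} → W' ⊆ {v | r ≤ sd x v} → Con W a c → Con W' b d →
      (W ∩ W').Nonempty

/-! ## Positions and arcs -/

/-- PO. Positions on a circle. -/
def PO_stmt : Prop :=
  (∀ (x : V) (n : ℕ) (u : V), 1 ≤ n → u ∈ bd x n → 1 ≤ pos x n u ∧ pos x n u ≤ 8 * n) ∧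
  (∀ (x : V) (n : ℕ) (u v : V), 1 ≤ n → u ∈ bd x n → v ∈ bd x n → pos x n u = pos x n v →
    u = v) ∧
  (∀ (x : V) (n : ℕ) (p : ℤ), 1 ≤ n → 1 ≤ p → p ≤ 8 * n → ∃ u ∈ bd x n, pos x n u = p) ∧
  (∀ (x : V) (n : ℕ) (u v : V), 1 ≤ n → nxt x n u v → Adj u v)

/-- AI. Induction along the counterclockwise arc from `u` to `v`. -/
def AI_stmt : Prop :=
  ∀ (x : V) (n : ℕ) (u v : V) (P : V → Prop), 1 ≤ n → u ∈ bd x n → v ∈ bd x n → P u →
    (∀ a b, nxt x n a b → a ≠ v → b ≠ u → onArc x n u v a → onArc x n u v b → P a → P b) → P v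

/-- AC. Two arcs between two points; alternation in terms of arcs; straight relations. -/
def AC_stmt : Prop :=
  (∀ (x : V) (n : ℕ) (u v w : V), 1 ≤ n → u ∈ bd x n → v ∈ bd x n → w ∈ bd x n → u ≠ v →
    onArc x n u v w ∨ onArc x n v u w) ∧
  (∀ (x : V) (n : ℕ) (u v w : V), 1 ≤ n → onArc x n u v w → onArc x n v u w → u ≠ v →
    w = u ∨ w = v) ∧
  (∀ (x : V) (n : ℕ) (a b c d : V), 1 ≤ n → alt x n a b c d → alt x n b c d a) ∧
  (∀ (x : V) (n : ℕ) (a b c d : V), 1 ≤ n → alt x n a b c d → alt x n c b a d) ∧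
  (∀ (x : V) (n : ℕ) (a b c d : V), 1 ≤ n → a ∈ bd x n → b ∈ bd x n → c ∈ bd x n →
    d ∈ bd x n → [a, b, c, d].Nodup → ¬ alt x n a b c d →
      (¬ onArc x n a c b ∧ ¬ onArc x n a c d) ∨ (¬ onArc x n c a b ∧ ¬ onArc x n c a d))

/-- Radial outer neighbour. -/
def ou (x : V) (n : ℕ) (u : V) : V :=
  (if u.1 = x.1 + n then u.1 + 1 else if u.1 = x.1 - n then u.1 - 1 else u.1,
    if u.2 = x.2 + n then u.2 + 1 else if u.2 = x.2 - n then u.2 - 1 else u.2)

/-- OU. The outer neighbour is adjacent and preserves arcs. -/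
def OU_stmt : Prop :=
  (∀ (x : V) (n : ℕ) (u : V), Even (x.1 + x.2) → 1 ≤ n → u ∈ bd x n →
    ou x n u ∈ bd x (n + 1) ∧ Adj u (ou x n u)) ∧
  (∀ (x : V) (n : ℕ) (u v w : V), 1 ≤ n → u ∈ bd x n → v ∈ bd x n → w ∈ bd x n → w ≠ u →
    w ≠ v → u ≠ v → (onArc x n u v w ↔ onArc x (n + 1) (ou x n u) (ou x n v) (ou x n w))) ∧
  (∀ (x : V) (n : ℕ) (u v : V), 1 ≤ n → u ∈ bd x n → v ∈ bd x n → ou x n u = ou x n v → u = v)

/-! ## Potentials of closed cochains -/

/-- `f` is closed on the triangles of the region `R`. -/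
def Closed (R : Set V) (f : V → V → ZMod 2) : Prop :=
  (∀ u v, f u v = f v u) ∧ ∀ u v w, u ∈ R → v ∈ R → w ∈ R → Adj u v → Adj v w → Adj w u →
    f u v + f v w + f w u = 0

/-- PR. Closed cochains on a rectangle are exact. -/
def PR_stmt : Prop :=
  ∀ (a b d e : ℤ) (f : V → V → ZMod 2), Closed (rect a b d e) f →
    ∃ φ : V → ZMod 2, ∀ u ∈ rect a b d e, ∀ v ∈ rect a b d e, Adj u v → f u v = φ u + φ v

/-- PX. Closed cochains on the exterior of a box which vanish far away are exact. -/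
def PX_stmt : Prop :=
  ∀ (x : V) (m n : ℕ) (f : V → V → ZMod 2), Even (x.1 + x.2) → 1 ≤ m → m < n →
    Closed {v | m ≤ sd x v} f → (∀ u v, n ≤ sd x u → n ≤ sd x v → f u v = 0) →
      ∃ φ : V → ZMod 2, ∀ u v, m ≤ sd x u → m ≤ sd x v → Adj u v → f u v = φ u + φ v

/-- Neighbours of `C` in `U` outside `C`. -/
def nbd (U C : Set V) : Set V := {w | w ∈ U ∧ w ∉ C ∧ ∃ z ∈ C, Adj z w}

/-- GO. Interface edges on the outer circle. -/
def GO_stmt : Prop :=
  ∀ (x : V) (m n : ℕ) (C : Set V) (u v : V), Even (x.1 + x.2) → 1 ≤ m → m < n →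
    C ⊆ ann x m n → u ∈ bd x n → v ∈ bd x n → (∃ p ∈ bd x m, Con C u p) →
      (∃ p ∈ bd x m, Con (ann x m n \ C) v p) →
        (∃ a b : V, (nxt x n a b ∨ (nxt x n b a ∧ b ≠ v)) ∧ onArc x n u v a ∧ onArc x n u v b ∧
          a ∈ C ∧ b ∉ C ∧ ∃ p ∈ bd x m, Con (nbd (ann x m n) C) b p) ∧
        (∃ a b : V, ((nxt x n a b ∧ a ≠ u) ∨ nxt x n b a) ∧ onArc x n v u a ∧ onArc x n v u b ∧
          a ∈ C ∧ b ∉ C ∧ ∃ p ∈ bd x m, Con (nbd (ann x m n) C) b p)

/-- GI. Interface edges on the inner circle. -/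
def GI_stmt : Prop :=
  ∀ (x : V) (m n : ℕ) (C : Set V) (u v : V), Even (x.1 + x.2) → 1 ≤ m → m < n →
    C ⊆ ann x m n → u ∈ bd x m → v ∈ bd x m → (∃ p ∈ bd x n, Con C u p) →
      (∃ p ∈ bd x n, Con (ann x m n \ C) v p) →
        (∃ a b : V, (nxt x m a b ∨ (nxt x m b a ∧ b ≠ v)) ∧ onArc x m u v a ∧ onArc x m u v b ∧
          a ∈ C ∧ b ∉ C ∧ ∃ p ∈ bd x n, Con (nbd (ann x m n) C) b p) ∧
        (∃ a b : V, ((nxt x m a b ∧ a ≠ u) ∨ nxt x m b a) ∧ onArc x m v u a ∧ onArc x m v u b ∧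
          a ∈ C ∧ b ∉ C ∧ ∃ p ∈ bd x n, Con (nbd (ann x m n) C) b p)

end DP
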