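import Pool.Agent.helper61.DP.SpecC

namespace DP

/-- Translation. -/
def RSX_tr (i j : ℤ) : V ≃ V where
  toFun v := (v.1 + i, v.2 + j)
  invFun v := (v.1 - i, v.2 - j)
  left_inv v := by ext <;> simp
  right_inv v := by ext <;> simp

/-- Exchange of the coordinates. -/
def RSX_sw : V ≃ V where
  toFun v := (v.2, v.1)
  invFun v := (v.2, v.1)
  left_inv v := rfl
  right_inv v := rfl

theorem RSX_con (φ : V ≃ V) (hφ : ∀ u v, Adj u v → Adj (φ u) (φ v)) {W : Set V} {u v : V}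
    (h : Con {z | φ z ∈ W} u v) : Con W (φ u) (φ v) :=
  h.induct' (fun z => Con W (φ u) (φ z)) (Con.refl h.1)
    fun a b _ hb hab hP => hP.step (hφ a b hab) hb

theorem RSX_con' (φ : V ≃ V) (hφ : ∀ u v, Adj u v → Adj (φ.symm u) (φ.symm v)) {W : Set V} {u v : V}
    (h : Con W u v) : Con {z | φ z ∈ W} (φ.symm u) (φ.symm v) :=
  h.induct' (fun z => Con {z | φ z ∈ W} (φ.symm u) (φ.symm z)) (Con.refl (by simpa using h.1))
    fun a b _ hb hab hP => hP.step (hφ a b hab) (by simpa using hb)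

theorem RSX_adj_tr (i j : ℤ) (hij : (i + j) % 2 = 0) (u v : V) (h : Adj u v) :
    Adj (RSX_tr i j u) (RSX_tr i j v) := by
  rw [adj_iff] at h ⊢
  simp only [RSX_tr, Equiv.coe_fn_mk]
  omega

theorem RSX_adj_tr' (i j : ℤ) (hij : (i + j) % 2 = 0) (u v : V) (h : Adj u v) :
    Adj ((RSX_tr i j).symm u) ((RSX_tr i j).symm v) := by
  rw [adj_iff] at h ⊢
  simp only [RSX_tr, Equiv.coe_fn_symm_mk]
  omega

theorem RSX_adj_sw (u v : V) (h : Adj u v) : Adj (RSX_sw u) (RSX_sw v) := by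
  rw [adj_iff] at h ⊢
  simp only [RSX_sw, Equiv.coe_fn_mk]
  omega

theorem RSX_adj_sw' (u v : V) (h : Adj u v) : Adj (RSX_sw.symm u) (RSX_sw.symm v) := by
  rw [adj_iff] at h ⊢
  simp only [RSX_sw, Equiv.coe_fn_symm_mk]
  omega

theorem RSX_h_tr (c : V → Bool) (k : Bool) (i j : ℤ) (hij : (i + j) % 2 = 0) (a b d e : ℤ) :
    hcross (fun v => c (RSX_tr i j v)) k a b d e ↔ hcross c k (a + i) (b + i) (d + j) (e + j) := by
  constructor
  · rintro ⟨u, v, hu, hv, h⟩
    refine ⟨RSX_tr i j u, RSX_tr i j v, by simp [RSX_tr, hu], by simp [RSX_tr, hv], ?_⟩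
    refine RSX_con (W := {w | w ∈ rect (a + i) (b + i) (d + j) (e + j) ∧ c w = k}) _
      (RSX_adj_tr i j hij) (Con.mono ?_ h)
    intro z hz
    have hz1 : z ∈ rect a b d e := hz.1
    refine ⟨?_, hz.2⟩
    simp only [rect, Set.mem_ofPred_eq, RSX_tr, Equiv.coe_fn_mk] at hz1 ⊢
    omega
  · rintro ⟨u, v, hu, hv, h⟩
    refine ⟨(RSX_tr i j).symm u, (RSX_tr i j).symm v, by simp [RSX_tr, hu], by simp [RSX_tr, hv], ?_⟩
    refine Con.mono ?_ (RSX_con' _ (RSX_adj_tr' i j hij) h)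
    rintro z ⟨hz1, hz2⟩
    refine ⟨?_, hz2⟩
    simp only [rect, Set.mem_ofPred_eq, RSX_tr, Equiv.coe_fn_mk] at hz1 ⊢
    omega

theorem RSX_v_tr (c : V → Bool) (k : Bool) (i j : ℤ) (hij : (i + j) % 2 = 0) (a b d e : ℤ) :
    vcross (fun v => c (RSX_tr i j v)) k a b d e ↔ vcross c k (a + i) (b + i) (d + j) (e + j) := by
  constructor
  · rintro ⟨u, v, hu, hv, h⟩
    refine ⟨RSX_tr i j u, RSX_tr i j v, by simp [RSX_tr, hu], by simp [RSX_tr, hv], ?_⟩
    refine RSX_con (W := {w | w ∈ rect (a + i) (b + i) (d + j) (e + j) ∧ c w = k}) _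
      (RSX_adj_tr i j hij) (Con.mono ?_ h)
    intro z hz
    have hz1 : z ∈ rect a b d e := hz.1
    refine ⟨?_, hz.2⟩
    simp only [rect, Set.mem_ofPred_eq, RSX_tr, Equiv.coe_fn_mk] at hz1 ⊢
    omega
  · rintro ⟨u, v, hu, hv, h⟩
    refine ⟨(RSX_tr i j).symm u, (RSX_tr i j).symm v, by simp [RSX_tr, hu], by simp [RSX_tr, hv], ?_⟩
    refine Con.mono ?_ (RSX_con' _ (RSX_adj_tr' i j hij) h)
    rintro z ⟨hz1, hz2⟩
    refine ⟨?_, hz2⟩
    simp only [rect, Set.mem_ofPred_eq, RSX_tr, Equiv.coe_fn_mk] at hz1 ⊢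
    omega

theorem RSX_h_sw (c : V → Bool) (k : Bool) (a b d e : ℤ) :
    hcross (fun v => c (RSX_sw v)) k d e a b ↔ vcross c k a b d e := by
  constructor
  · rintro ⟨u, v, hu, hv, h⟩
    refine ⟨RSX_sw u, RSX_sw v, by simp [RSX_sw, hu], by simp [RSX_sw, hv], ?_⟩
    refine RSX_con (W := {w | w ∈ rect a b d e ∧ c w = k}) _ RSX_adj_sw (Con.mono ?_ h)
    intro z hz
    have hz1 : z ∈ rect d e a b := hz.1
    refine ⟨?_, hz.2⟩
    simp only [rect, Set.mem_ofPred_eq, RSX_sw, Equiv.coe_fn_mk] at hz1 ⊢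
    omega
  · rintro ⟨u, v, hu, hv, h⟩
    refine ⟨RSX_sw.symm u, RSX_sw.symm v, by simp [RSX_sw, hu], by simp [RSX_sw, hv], ?_⟩
    refine (RSX_con' _ RSX_adj_sw' h).mono ?_
    rintro z ⟨hz1, hz2⟩
    refine ⟨?_, hz2⟩
    simp only [rect, Set.mem_ofPred_eq, RSX_sw, Equiv.coe_fn_mk] at hz1 ⊢
    omega

theorem RSX_not (c : V → Bool) (k : Bool) (R : Set V) (u v : V) :
    Conn (fun v => !(c v)) k R u v ↔ Conn c (!k) R u v := by
  have : {w | w ∈ R ∧ (!(c w)) = k} = {w | w ∈ R ∧ c w = !k} := by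
    ext w
    simp only [Set.mem_ofPred_eq]
    cases c w <;> cases k <;> simp
  unfold Conn
  rw [this]

theorem RSX_h_not (c : V → Bool) (k : Bool) (a b d e : ℤ) :
    hcross (fun v => !(c v)) k a b d e ↔ hcross c (!k) a b d e := by
  unfold hcross
  simp only [RSX_not]

theorem RSX_v_not (c : V → Bool) (k : Bool) (a b d e : ℤ) :
    vcross (fun v => !(c v)) k a b d e ↔ vcross c (!k) a b d e := by
  unfold vcross
  simp only [RSX_not]

theorem RSX (hS : RSY_stmt) (hL : RLM_stmt) : RSX_stmt := by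
  obtain ⟨hS1, hS2⟩ := hS
  refine ⟨?_, ?_, ?_⟩
  · intro k a b d e i j
    have hφ : ∀ v, (prm (RSX_tr (2 * i) (2 * j) v) ↔ prm v) ∧
        (dul (RSX_tr (2 * i) (2 * j) v) ↔ dul v) := by
      intro v
      simp only [prm, dul, RSX_tr, Equiv.coe_fn_mk]
      omega
    refine ⟨?_, ?_⟩
    · have h := hS1 (RSX_tr (2 * i) (2 * j)) (fun c => hcross c k a b d e) _ (hL k a b d e).1 hφ
      unfold ph
      rw [← h]
      congr 2
      funext c
      exact (propext (RSX_h_tr c k (2 * i) (2 * j) (by omega) a b d e)).symm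
    · have h := hS1 (RSX_tr (2 * i) (2 * j)) (fun c => vcross c k a b d e) _ (hL k a b d e).2.1 hφ
      unfold pv
      rw [← h]
      congr 2
      funext c
      exact (propext (RSX_v_tr c k (2 * i) (2 * j) (by omega) a b d e)).symm
  · intro k a b d e
    have hφ : ∀ v, (prm (RSX_sw v) ↔ prm v) ∧ (dul (RSX_sw v) ↔ dul v) := by
      intro v
      simp only [prm, dul, RSX_sw, Equiv.coe_fn_mk]
      omega
    have h := hS1 RSX_sw (fun c => hcross c k d e a b) _ (hL k d e a b).1 hφ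
    unfold pv ph
    rw [← h]
    congr 2
    funext c
    exact (propext (RSX_h_sw c k a b d e)).symm
  · intro k a b d e
    have hφ : ∀ v, (prm (RSX_tr 1 1 v) ↔ dul v) ∧ (dul (RSX_tr 1 1 v) ↔ prm v) := by
      intro v
      simp only [prm, dul, RSX_tr, Equiv.coe_fn_mk]
      omega
    refine ⟨?_, ?_⟩
    · have h := hS2 (RSX_tr 1 1) (fun c => hcross c k a b d e) _ (hL k a b d e).1 hφ
      unfold ph
      rw [← h]
      congr 2
      funext c
      refine propext ?_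
      rw [← RSX_h_tr c (!k) 1 1 (by norm_num) a b d e]
      exact (RSX_h_not (fun v => c (RSX_tr 1 1 v)) k a b d e).symm
    · have h := hS2 (RSX_tr 1 1) (fun c => vcross c k a b d e) _ (hL k a b d e).2.1 hφ
      unfold pv
      rw [← h]
      congr 2
      funext c
      refine propext ?_
      rw [← RSX_v_tr c (!k) 1 1 (by norm_num) a b d e]
      exact (RSX_v_not (fun v => c (RSX_tr 1 1 v)) k a b d e).symm

end DP
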