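import Pool.Agent.helper61.DP.SpecA
import Pool.Agent.helper13.DP.PO

namespace DP

theorem KP_i (p : Prop) : (p ∧ i01 p = 1) ∨ (¬ p ∧ i01 p = 0) := by
  unfold i01
  by_cases h : p
  · left
    exact ⟨h, if_pos h⟩
  · right
    exact ⟨h, if_neg h⟩

theorem KP_bd {x u : V} {n : ℕ} (h : u ∈ bd x n) :
    (x.1 - n ≤ u.1 ∧ u.1 ≤ x.1 + n ∧ x.2 - n ≤ u.2 ∧ u.2 ≤ x.2 + n) ∧
    (u.1 = x.1 + n ∨ u.2 = x.2 + n ∨ u.1 = x.1 - n ∨ u.2 = x.2 - n) := by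
  have h' : sd x u = n := h
  unfold sd at h'
  omega

theorem KP_ext {x u : V} {n : ℕ} (h : n ≤ sd x u) :
    (u.1 ≤ x.1 - n ∨ x.1 + n ≤ u.1) ∨ (u.2 ≤ x.2 - n ∨ x.2 + n ≤ u.2) := by
  unfold sd at h
  omega

theorem KP1 (x : V) (r : ℕ) (p z z' : V) (hp : p ∈ bd x r) (hz : z ∈ box x r) (hz' : z' ∈ box x r)
    (hadj : Adj z z') (h1 : p ≠ z) (h2 : p ≠ z') :
    ((z'.1 = z.1 → kap x r p z = kap x r p z') ∧
        (z'.1 = z.1 + 1 → (kap x r p z + kap x r p z' + i01 (above z' p)) % 2 = 0)) := by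
  obtain ⟨hp1, hp2⟩ := KP_bd hp
  have hz1 : sd x z ≤ r := hz
  have hz2 : sd x z' ≤ r := hz'
  rw [adj_iff] at hadj
  rw [Ne, Prod.ext_iff] at h1 h2
  rw [sd_le_iff] at hz1 hz2
  unfold kap above
  by_cases c1 : p.2 = x.2 + r
  · rw [if_pos c1, if_pos c1]
    rcases KP_i (p.1 ≤ z.1) with ⟨g1, e1⟩ | ⟨g1, e1⟩ <;>
      rcases KP_i (p.1 ≤ z'.1) with ⟨g2, e2⟩ | ⟨g2, e2⟩ <;>
      rcases KP_i (p.1 = z'.1 ∧ z'.2 < p.2) with ⟨g3, e3⟩ | ⟨g3, e3⟩ <;>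
      rw [e1, e2, e3] <;> constructor <;> intro h <;> omega
  · rw [if_neg c1, if_neg c1]
    by_cases c2 : p.1 = x.1 + r
    · rw [if_pos c2, if_pos c2]
      rcases KP_i (z.1 = p.1 ∧ z.2 < p.2) with ⟨g1, e1⟩ | ⟨g1, e1⟩ <;>
        rcases KP_i (z'.1 = p.1 ∧ z'.2 < p.2) with ⟨g2, e2⟩ | ⟨g2, e2⟩ <;>
        rcases KP_i (p.1 = z'.1 ∧ z'.2 < p.2) with ⟨g3, e3⟩ | ⟨g3, e3⟩ <;>
        rw [e1, e2, e3] <;> constructor <;> intro h <;> omega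
    · rw [if_neg c2, if_neg c2]
      rcases KP_i (p.1 = z'.1 ∧ z'.2 < p.2) with ⟨g3, e3⟩ | ⟨g3, e3⟩ <;>
        rw [e3] <;> constructor <;> intro h <;> omega

/-- The potential outside, columns left of the box, the left column, hole columns, right. -/
theorem KP_hap (x : V) (r : ℕ) (p z : V) :
    (z.1 = x.1 - r ∧ ((p.1 = z.1 ∧ z.2 < p.2) ∧ hap x r p z = 1 ∨
      ¬ (p.1 = z.1 ∧ z.2 < p.2) ∧ hap x r p z = 0)) ∨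
    (z.1 ≠ x.1 - r ∧ ((z.2 < x.2 ∧ x.1 - r < z.1 ∧ z.1 < p.1) ∧ hap x r p z = 1 ∨
      ¬ (z.2 < x.2 ∧ x.1 - r < z.1 ∧ z.1 < p.1) ∧ hap x r p z = 0)) := by
  unfold hap
  by_cases c : z.1 = x.1 - r
  · rw [if_pos c]
    exact Or.inl ⟨c, KP_i _⟩
  · rw [if_neg c]
    exact Or.inr ⟨c, KP_i _⟩

theorem KP2v (x : V) (r : ℕ) (p z z' : V) (hr : 1 ≤ r) (hp : p ∈ bd x r)
    (hz : r ≤ sd x z) (hz' : r ≤ sd x z') (hadj : Adj z z') (h1 : p ≠ z) (h2 : p ≠ z')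
    (h : z'.1 = z.1) : hap x r p z = hap x r p z' := by
  obtain ⟨hp1, -⟩ := KP_bd hp
  have hz1 := KP_ext hz
  have hz2 := KP_ext hz'
  rw [adj_iff] at hadj
  rw [Ne, Prod.ext_iff] at h1 h2
  rcases KP_hap x r p z with ⟨c1, ⟨g1, e1⟩ | ⟨g1, e1⟩⟩ | ⟨c1, ⟨g1, e1⟩ | ⟨g1, e1⟩⟩ <;>
    rcases KP_hap x r p z' with ⟨c2, ⟨g2, e2⟩ | ⟨g2, e2⟩⟩ | ⟨c2, ⟨g2, e2⟩ | ⟨g2, e2⟩⟩ <;>
    rw [e1, e2] <;> exfalso <;> omega

theorem KP2h (x : V) (r : ℕ) (p z z' : V) (he : (x.1 + x.2) % 2 = 0) (hr : 1 ≤ r)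
    (hp : p ∈ bd x r) (hz : r ≤ sd x z) (hz' : r ≤ sd x z') (hadj : Adj z z') (h1 : p ≠ z)
    (h2 : p ≠ z') (h : z'.1 = z.1 + 1) :
    (hap x r p z + hap x r p z' + i01 (above z' p) +
      i01 (z.1 = x.1 - r ∧ z'.2 ≤ x.2 - r)) % 2 = 0 := by
  obtain ⟨hp1, hp2⟩ := KP_bd hp
  have hz1 := KP_ext hz
  have hz2 := KP_ext hz'
  rw [adj_iff] at hadj
  rw [Ne, Prod.ext_iff] at h1 h2
  unfold above
  rcases KP_hap x r p z with ⟨c1, ⟨g1, e1⟩ | ⟨g1, e1⟩⟩ | ⟨c1, ⟨g1, e1⟩ | ⟨g1, e1⟩⟩ <;>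
    rcases KP_hap x r p z' with ⟨c2, ⟨g2, e2⟩ | ⟨g2, e2⟩⟩ | ⟨c2, ⟨g2, e2⟩ | ⟨g2, e2⟩⟩ <;>
    rcases KP_i (p.1 = z'.1 ∧ z'.2 < p.2) with ⟨g3, e3⟩ | ⟨g3, e3⟩ <;>
    rcases KP_i (z.1 = x.1 - r ∧ z'.2 ≤ x.2 - r) with ⟨g4, e4⟩ | ⟨g4, e4⟩ <;>
    rw [e1, e2, e3, e4] <;> first | rfl | (exfalso; omega)

theorem KP_kap (x : V) (r : ℕ) (p z : V) :
    (p.2 = x.2 + r ∧ (p.1 ≤ z.1 ∧ kap x r p z = 1 ∨ ¬ p.1 ≤ z.1 ∧ kap x r p z = 0)) ∨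
    (p.2 ≠ x.2 + r ∧ p.1 = x.1 + r ∧ ((z.1 = p.1 ∧ z.2 < p.2) ∧ kap x r p z = 1 ∨
      ¬ (z.1 = p.1 ∧ z.2 < p.2) ∧ kap x r p z = 0)) ∨
    (p.2 ≠ x.2 + r ∧ p.1 ≠ x.1 + r ∧ kap x r p z = 0) := by
  unfold kap
  by_cases c : p.2 = x.2 + r
  · rw [if_pos c]
    exact Or.inl ⟨c, KP_i _⟩
  · rw [if_neg c]
    by_cases c' : p.1 = x.1 + r
    · rw [if_pos c']
      exact Or.inr (Or.inl ⟨c, c', KP_i _⟩)
    · rw [if_neg c']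
      exact Or.inr (Or.inr ⟨c, c', rfl⟩)

theorem KP_eta (x : V) (r : ℕ) (p z : V) (hr : 1 ≤ r) (hp : p ∈ bd x r) (hz : z ∈ bd x r)
    (hne : p ≠ z) :
    (kap x r p z + hap x r p z + i01 (pos x r z < pos x r p) +
      i01 (¬ p.2 = x.2 + r ∧ ¬ (p.1 = x.1 + r ∧ x.2 - r < p.2)) +
      i01 (z.2 = x.2 - r ∧ x.1 - r < z.1)) % 2 = 0 := by
  have h1 := PO_cases hr hp
  have h2 := PO_cases hr hz
  rw [Ne, Prod.ext_iff] at hne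
  rcases KP_kap x r p z with ⟨c1, ⟨g1, e1⟩ | ⟨g1, e1⟩⟩ | ⟨c1, c1', ⟨g1, e1⟩ | ⟨g1, e1⟩⟩ |
      ⟨c1, c1', e1⟩ <;>
    rcases KP_hap x r p z with ⟨c2, ⟨g2, e2⟩ | ⟨g2, e2⟩⟩ | ⟨c2, ⟨g2, e2⟩ | ⟨g2, e2⟩⟩ <;>
    rcases KP_i (pos x r z < pos x r p) with ⟨g3, e3⟩ | ⟨g3, e3⟩ <;>
    rcases KP_i (¬ p.2 = x.2 + r ∧ ¬ (p.1 = x.1 + r ∧ x.2 - r < p.2)) with ⟨g4, e4⟩ | ⟨g4, e4⟩ <;>
    rcases KP_i (z.2 = x.2 - r ∧ x.1 - r < z.1) with ⟨g5, e5⟩ | ⟨g5, e5⟩ <;>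
    rw [e1, e2, e3, e4, e5] <;> first | rfl | (exfalso; omega)

theorem KP_alt (x : V) (r : ℕ) (a b c d : V) (hr : 1 ≤ r) (h : alt x r a b c d) :
    (i01 (pos x r a < pos x r b) + i01 (pos x r a < pos x r d) + i01 (pos x r c < pos x r b) +
      i01 (pos x r c < pos x r d)) % 2 = 1 := by
  obtain ⟨⟨ma, mb, mc, md⟩, hnd, harc⟩ := h
  have hinj := PO.2.1
  simp only [List.nodup_cons, List.mem_cons, List.not_mem_nil, or_false, not_or, not_false_eq_true,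
    List.nodup_nil, and_true] at hnd
  obtain ⟨⟨hab, hac, had⟩, ⟨hbc, hbd⟩, hcd⟩ := hnd
  have pab : pos x r a ≠ pos x r b := fun h => hab (hinj x r a b hr ma mb h)
  have pac : pos x r a ≠ pos x r c := fun h => hac (hinj x r a c hr ma mc h)
  have pad : pos x r a ≠ pos x r d := fun h => had (hinj x r a d hr ma md h)
  have pbc : pos x r b ≠ pos x r c := fun h => hbc (hinj x r b c hr mb mc h)
  have pbd : pos x r b ≠ pos x r d := fun h => hbd (hinj x r b d hr mb md h)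
  have pcd : pos x r c ≠ pos x r d := fun h => hcd (hinj x r c d hr mc md h)
  unfold onArc at harc
  generalize pos x r a = A at *
  generalize pos x r b = B at *
  generalize pos x r c = C at *
  generalize pos x r d = D at *
  rcases KP_i (A < B) with ⟨g1, e1⟩ | ⟨g1, e1⟩ <;>
    rcases KP_i (A < D) with ⟨g2, e2⟩ | ⟨g2, e2⟩ <;>
    rcases KP_i (C < B) with ⟨g3, e3⟩ | ⟨g3, e3⟩ <;>
    rcases KP_i (C < D) with ⟨g4, e4⟩ | ⟨g4, e4⟩ <;>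
    rw [e1, e2, e3, e4] <;> first | rfl | (exfalso; split_ifs at harc <;> omega)

theorem KP : KP_stmt := by
  refine ⟨KP1, ?_, ?_⟩
  · intro x r p z z' he hr hp hz hz' hadj h1 h2
    exact ⟨fun h => KP2v x r p z z' hr hp hz hz' hadj h1 h2 h,
      fun h => KP2h x r p z z' (Int.even_iff.1 he) hr hp hz hz' hadj h1 h2 h⟩
  · intro x r a b c d hr h
    have h0 := KP_alt x r a b c d hr h
    obtain ⟨⟨ma, mb, mc, md⟩, hnd, -⟩ := h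
    simp only [List.nodup_cons, List.mem_cons, List.not_mem_nil, or_false, not_or,
      not_false_eq_true, List.nodup_nil, and_true] at hnd
    obtain ⟨⟨hab, hac, had⟩, ⟨hbc, hbd⟩, hcd⟩ := hnd
    have e1 := KP_eta x r b a hr mb ma (Ne.symm hab)
    have e2 := KP_eta x r d a hr md ma (Ne.symm had)
    have e3 := KP_eta x r b c hr mb mc hbc
    have e4 := KP_eta x r d c hr md mc (Ne.symm hcd)
    omega

end DP
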