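import Pool.Agent.helper61.DP.SpecC

namespace DP

theorem RHM_hit (f : V → ℤ) (hf : ∀ a b, Adj a b → f b ≤ f a + 1) {W : Set V} {u v : V} (t : ℤ)
    (h : Con W u v) (hu : f u ≤ t) (hv : t ≤ f v) :
    ∃ q, f q = t ∧ Con (W ∩ {z | f z ≤ t}) u q := by
  have key : (∃ q, f q = t ∧ Con (W ∩ {z | f z ≤ t}) u q) ∨
      (f v < t ∧ Con (W ∩ {z | f z ≤ t}) u v) := by
    refine h.induct' (fun z => (∃ q, f q = t ∧ Con (W ∩ {z | f z ≤ t}) u q) ∨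
      (f z < t ∧ Con (W ∩ {z | f z ≤ t}) u z)) ?_ ?_
    · rcases lt_or_eq_of_le hu with h1 | h1
      · exact Or.inr ⟨h1, Con.refl ⟨h.1, hu⟩⟩
      · exact Or.inl ⟨u, h1, Con.refl ⟨h.1, hu⟩⟩
    · rintro a b - hb hab (hP | ⟨h1, h2⟩)
      · exact Or.inl hP
      · have h3 := hf a b hab
        have h4 : f b ≤ t := by omega
        have h5 : Con (W ∩ {z | f z ≤ t}) u b := h2.step hab ⟨hb, h4⟩
        rcases lt_or_eq_of_le h4 with h6 | h6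
        · exact Or.inr ⟨h6, h5⟩
        · exact Or.inl ⟨b, h6, h5⟩
  rcases key with h1 | ⟨h1, -⟩
  · exact h1
  · omega

theorem RHM_mid (f : V → ℤ) (hf : ∀ a b, Adj a b → f b ≤ f a + 1) {W : Set V} {u v : V} (s t : ℤ)
    (hst : s ≤ t) (h : Con W u v) (hu : f u ≤ s) (hv : t ≤ f v) :
    ∃ p q, f p = s ∧ f q = t ∧ Con (W ∩ {z | s ≤ f z ∧ f z ≤ t}) p q := by
  obtain ⟨q, hq, h1⟩ := RHM_hit f hf t h (hu.trans hst) hv
  obtain ⟨p, hp, h2⟩ := RHM_hit (fun z => - f z)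
    (fun a b hab => by have := hf b a hab.symm; omega) (-s) h1.symm (by omega) (by omega)
  refine ⟨p, q, by omega, hq, ?_⟩
  refine h2.symm.mono ?_
  rintro z ⟨⟨hz1, hz2⟩, hz3⟩
  have hz2' : f z ≤ t := hz2
  have hz3' : - f z ≤ - s := hz3
  exact ⟨hz1, by omega, hz2'⟩

theorem RHM : RHM_stmt := by
  refine ⟨?_, ?_⟩
  · rintro c k a b d e a' b' d' e' h1 h2 h3 h4 h5 ⟨u, v, hu, hv, h⟩
    obtain ⟨p, q, hp, hq, h6⟩ := RHM_mid (fun z => z.1)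
      (fun a b hab => by rw [adj_iff] at hab; omega) a' b' h2 h (by omega) (by omega)
    refine ⟨p, q, hp, hq, Con.mono ?_ h6⟩
    rintro z ⟨⟨hz1, hz2⟩, hz3⟩
    refine ⟨?_, hz2⟩
    simp only [rect, Set.mem_ofPred_eq] at hz1 hz3 ⊢
    omega
  · rintro c k a b d e a' b' d' e' h1 h2 h3 h4 h5 ⟨u, v, hu, hv, h⟩
    obtain ⟨p, q, hp, hq, h6⟩ := RHM_mid (fun z => z.2)
      (fun a b hab => by rw [adj_iff] at hab; omega) d' e' h4 h (by omega) (by omega)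
    refine ⟨p, q, hp, hq, Con.mono ?_ h6⟩
    rintro z ⟨⟨hz1, hz2⟩, hz3⟩
    refine ⟨?_, hz2⟩
    simp only [rect, Set.mem_ofPred_eq] at hz1 hz3 ⊢
    omega

end DP
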