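import Pool.Agent.helper61.DP.SpecC

namespace DP

theorem RR6 (h0 : RQ0_stmt) (h4 : RR4_stmt) (hg : RGP_stmt) (hX : RSX_stmt) : RR6_stmt := by
  have step : ∀ (n : ℕ) (b : ℤ) (p : ℝ), Even b → 2 * (n : ℤ) ≤ b → 0 ≤ p →
      p ≤ ph true 0 b 0 (4 * n) → p ^ 2 / 32 ≤ ph true 0 (2 * b - 2 * n) 0 (4 * n) := by
    intro n b p hb hnb hp hpb
    have e1 := h4 (2 * n) b (2 * n) (by positivity) hnb (by positivity)
    have e2 := hg (2 * n) b (2 * n) ⟨n, by ring⟩ hb (by positivity) hnb (by positivity)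
    have e3 := h0 n
    have e4 : 1 / 2 ≤ pv true 0 (2 * n) 0 (2 * n) := by
      rw [hX.2.1]
      exact e3
    have e5 : (2 : ℤ) * (2 * n) = 4 * n := by ring
    rw [e5] at e1 e2
    have e6 : p / 4 ≤ Pr (Ev fun c => EV c (2 * n) b (2 * n)) := by
      refine le_trans ?_ e1
      have : (1 / 2) * (p / 2) ≤ pv true 0 (2 * n) 0 (2 * n) * (ph true 0 b 0 (4 * n) / 2) :=
        mul_le_mul e4 (by linarith) (by linarith) (by linarith)
      linarith
    refine le_trans ?_ e2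
    have e7 : (p / 4) ^ 2 ≤ Pr (Ev fun c => EV c (2 * n) b (2 * n)) ^ 2 :=
      pow_le_pow_left₀ (by linarith) e6 2
    have e8 : (p / 4) ^ 2 * (1 / 2) ≤
        Pr (Ev fun c => EV c (2 * n) b (2 * n)) ^ 2 * ph true 0 (2 * n) 0 (2 * n) :=
      mul_le_mul e7 e3 (by norm_num) (by positivity)
    linarith [e8]
  refine ⟨(1 / 128) ^ 2 / 32 * ((1 / 128) ^ 2 / 32) / 32, by norm_num, ?_⟩
  intro n _
  have a1 : (1 / 2 : ℝ) ≤ ph true 0 (4 * n) 0 (4 * n) := by
    have := h0 (2 * n)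
    push_cast at this
    rw [show (2 : ℤ) * (2 * n) = 4 * n by ring] at this
    exact this
  have a2 := step n (4 * n) (1 / 2) ⟨2 * n, by ring⟩ (by omega) (by norm_num) a1
  rw [show (2 : ℤ) * (4 * n) - 2 * n = 6 * n by ring] at a2
  have a3 := step n (6 * n) ((1 / 2) ^ 2 / 32) ⟨3 * n, by ring⟩ (by omega) (by norm_num) a2
  rw [show (2 : ℤ) * (6 * n) - 2 * n = 10 * n by ring] at a3
  have a4 := step n (10 * n) _ ⟨5 * n, by ring⟩ (by omega) (by norm_num) a3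
  rw [show (2 : ℤ) * (10 * n) - 2 * n = 18 * n by ring] at a4
  refine le_trans ?_ a4
  norm_num

end DP
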