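import Pool.Agent.helper61.DP.SpecC

namespace DP

theorem RSY_flip (φ : V ≃ V) (hφ : ∀ v, (prm (φ v) ↔ dul v) ∧ (dul (φ v) ↔ prm v)) (b : V → Bool) :
    (fun v => !(col b (φ v))) = col (fun v => !(b (φ v))) := by
  funext v
  obtain ⟨h1, h2⟩ := hφ v
  unfold prm dul at h1 h2
  unfold col
  by_cases hd : v.1 % 2 = 1 ∧ v.2 % 2 = 1
  · have h3 : ¬ (v.1 % 2 = 0 ∧ v.2 % 2 = 0) := by omega
    rw [if_pos (h1.2 hd), if_neg h3, if_pos hd]
    rfl
  · by_cases hp : v.1 % 2 = 0 ∧ v.2 % 2 = 0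
    · rw [if_pos hp, if_neg (fun h => hd (h1.1 h)), if_pos (h2.2 hp)]
      rfl
    · rw [if_neg hp, if_neg hd, if_neg (fun h => hd (h1.1 h)), if_neg (fun h => hp (h2.1 h))]

theorem RSY_keep (φ : V ≃ V) (hφ : ∀ v, (prm (φ v) ↔ prm v) ∧ (dul (φ v) ↔ dul v)) (b : V → Bool) :
    (fun v => col b (φ v)) = col (fun v => b (φ v)) := by
  funext v
  obtain ⟨h1, h2⟩ := hφ v
  unfold prm at h1
  unfold dul at h2
  unfold col
  by_cases hp : v.1 % 2 = 0 ∧ v.2 % 2 = 0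
  · rw [if_pos hp, if_pos (h1.2 hp)]
  · rw [if_neg hp, if_neg (fun h => hp (h1.1 h))]
    by_cases hd : v.1 % 2 = 1 ∧ v.2 % 2 = 1
    · rw [if_pos hd, if_pos (h2.2 hd)]
    · rw [if_neg hd, if_neg (fun h => hd (h2.1 h))]

theorem RSY (hB : Bflip_stmt) : RSY_stmt := by
  refine ⟨?_, ?_⟩
  · intro φ p A hp hφ
    have hid : Loc {b | (fun v => !(b v)) ∈ Ev p} A := by
      obtain ⟨Λ, h1, h2⟩ := hp
      refine ⟨Λ, h1, fun b b' hb => h2 _ _ fun v hv => ?_⟩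
      rw [hb v hv]
    have e1 := hB φ _ A hid
    have e2 := hB (Equiv.refl V) _ A hp
    simp only [Equiv.refl_apply] at e2
    rw [e2] at e1
    rw [← e1]
    congr 1
    ext b
    simp only [Ev, Set.mem_ofPred_eq, Bool.not_not]
    rw [RSY_keep φ hφ b]
  · intro φ p A hp hφ
    rw [← hB φ (Ev p) A hp]
    congr 1
    ext b
    simp only [Ev, Set.mem_ofPred_eq]
    rw [RSY_flip φ hφ b]

end DP
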