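import Pool.Agent.helper61.DP.SpecA

namespace DP

theorem SISO_mem {x : V} {r : ℕ} {a b c d : V} (h : alt x r a b c d) :
    a ∈ bd x r ∧ b ∈ bd x r ∧ c ∈ bd x r ∧ d ∈ bd x r := h.1

theorem SI (hJS : JS_stmt) (hCX : CX_stmt) : SI_stmt := by
  intro x r a b c d W W' he hr ha hW hW' hac hbd
  by_contra hne
  rw [Set.not_nonempty_iff_eq_empty] at hne
  have hdis : ∀ z ∈ W, z ∉ W' := fun z hz hz' => by
    have : z ∈ W ∩ W' := ⟨hz, hz'⟩
    rw [hne] at this
    exact this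
  obtain ⟨ma, mb, mc, md⟩ := ha.1
  obtain ⟨a', ha', haa'⟩ := hCX.2.2.2 x r a he ma
  obtain ⟨c', hc', hcc'⟩ := hCX.2.2.2 x r c he mc
  have hext := hCX.2.1 x (r + 1) a' c' (by omega) (le_of_eq (Eq.symm ha')) (le_of_eq (Eq.symm hc'))
  set W₂ : Set V := {w | r + 1 ≤ sd x w} ∪ {a, c} with hW₂
  have hsub : {w | r + 1 ≤ sd x w} ⊆ W₂ := Set.subset_union_left
  have haW : a ∈ W₂ := Or.inr (Or.inl rfl)
  have hcW : c ∈ W₂ := Or.inr (Or.inr rfl)
  have hcon : Con W₂ a c :=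
    (Con.single haW haa' (hsub (le_of_eq (Eq.symm ha')))).trans
      ((hext.mono hsub).step hcc'.symm hcW)
  have hW₂' : W₂ ⊆ {v | r ≤ sd x v} := by
    rintro z (hz | rfl | hz)
    · have : r + 1 ≤ sd x z := hz
      show r ≤ sd x z
      omega
    · exact le_of_eq (Eq.symm ma)
    · rw [Set.mem_singleton_iff] at hz
      subst hz
      exact le_of_eq (Eq.symm mc)
  obtain ⟨z, hz | hz, hz'⟩ := hJS x r a b c d W W₂ W' he hr ha hW hW₂' hac hcon hbd
  · exact hdis z hz hz'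
  · rcases hz with hz | rfl | hz
    · have h1 : r + 1 ≤ sd x z := hz
      have h2 : sd x z ≤ r := hW' hz'
      omega
    · exact hdis _ hac.1 hz'
    · rw [Set.mem_singleton_iff] at hz
      subst hz
      exact hdis _ hac.mem_right hz'

theorem SO (hJS : JS_stmt) (hCX : CX_stmt) : SO_stmt := by
  intro x r a b c d W W' he hr ha hW hW' hac hbd
  by_contra hne
  rw [Set.not_nonempty_iff_eq_empty] at hne
  have hdis : ∀ z ∈ W, z ∉ W' := fun z hz hz' => by
    have : z ∈ W ∩ W' := ⟨hz, hz'⟩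
    rw [hne] at this
    exact this
  obtain ⟨s, rfl⟩ : ∃ s, r = s + 1 := ⟨r - 1, by omega⟩
  obtain ⟨ma, mb, mc, md⟩ := ha.1
  obtain ⟨a', ha', haa'⟩ := hCX.2.2.1 x s a he ma
  obtain ⟨c', hc', hcc'⟩ := hCX.2.2.1 x s c he mc
  have hbox := hCX.1 x s a' c' (le_of_eq ha') (le_of_eq hc')
  set W₁ : Set V := box x s ∪ {a, c} with hW₁
  have hsub : box x s ⊆ W₁ := Set.subset_union_left
  have haW : a ∈ W₁ := Or.inr (Or.inl rfl)
  have hcW : c ∈ W₁ := Or.inr (Or.inr rfl)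
  have hcon : Con W₁ a c :=
    (Con.single haW haa' (hsub (le_of_eq ha'))).trans
      ((hbox.mono hsub).step hcc'.symm hcW)
  have hW₁' : W₁ ⊆ box x (s + 1) := by
    rintro z (hz | rfl | hz)
    · have : sd x z ≤ s := hz
      show sd x z ≤ s + 1
      omega
    · exact le_of_eq ma
    · rw [Set.mem_singleton_iff] at hz
      subst hz
      exact le_of_eq mc
  obtain ⟨z, hz | hz, hz'⟩ := hJS x (s + 1) a b c d W₁ W W' he hr ha hW₁' hW hcon hac hbd
  · rcases hz with hz | rfl | hz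
    · have h1 : sd x z ≤ s := hz
      have h2 : s + 1 ≤ sd x z := hW' hz'
      omega
    · exact hdis _ hac.1 hz'
    · rw [Set.mem_singleton_iff] at hz
      subst hz
      exact hdis _ hac.mem_right hz'
  · exact hdis z hz hz'

end DP
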