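import Pool.Agent.helper61.DP.LC
import Pool.Agent.helper61.DP.KP
import Pool.Agent.helper61.DP.SISO
import Pool.Agent.helper4.DP.CX
import Pool.Agent.helper61.DP.RHM
import Pool.Agent.helper61.DP.RSY
import Pool.Agent.helper61.DP.RSX
import Pool.Agent.helper61.DP.RR6
import Pool.Agent.helper49.DP.UV
import Pool.Agent.helper60.DP.UH
import Pool.Agent.helper51.DP.JS
import Pool.Agent.helper13.DP.PO
import Pool.Agent.helper14.DP.AI
import Pool.Agent.helper13.DP.AC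
import Pool.Agent.helper91.DP.OU
import Pool.Agent.helper60.DP.PR
import Pool.Agent.helper66.DP.GO
import Pool.Agent.helper51.DP.GI
import Pool.Agent.helper72.DP.FI
import Pool.Agent.helper13.DP.FO
import Pool.Agent.helper78.DP.QX
import Pool.Agent.helper14.DP.IFOF
import Pool.Agent.helper55.DP.OT
import Pool.Agent.helper11.DP.TO
import Pool.Agent.helper14.DP.TI
import Pool.Agent.helper49.DP.RC
import Pool.Agent.helper40.DP.LH
import Pool.Agent.helper66.DP.EX
import Pool.Agent.helper55.DP.HX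
import Pool.Agent.helper49.DP.BSYM
import Pool.Agent.helper35.DP.BIND
import Pool.Agent.helper17.DP.BFKG
import Pool.Agent.helper95.DP.BEASY
import Pool.Agent.helper55.DP.RLM
import Pool.Agent.helper29.DP.RQD
import Pool.Agent.helper18.DP.RQ0
import Pool.Agent.helper18.DP.RR1
import Pool.Agent.helper97.DP.RR5
import Pool.Agent.helper60.DP.RR2
import Pool.Agent.helper14.DP.RR3
import Pool.Agent.helper1.DP.RR4
import Pool.Agent.helper97.DP.RGD
import Pool.Agent.helper86.DP.RGP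
import Pool.Agent.helper72.DP.RSW
import Pool.Agent.helper79.DP.RLP
import Pool.Agent.helper20.DP.RLL
import Pool.Agent.helper20.DP.C1
import Pool.Agent.helper60.DP.C2
import Pool.Agent.helper99.DP.RWP
import Pool.Agent.helper51.DP.PX

/-!
# Assembly of parts A and C of the project dp
-/

namespace DP

/-! ### Part A -/

theorem Asm_LH : LH_stmt := LH UV UH
theorem Asm_LC : LC_stmt := LC
theorem Asm_LN : LN_stmt := LN Asm_LH
theorem Asm_PX : PX_stmt := PX PR
theorem Asm_AI : AI_stmt := AI PO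
theorem Asm_AC : AC_stmt := AC PO
theorem Asm_EX : EX_stmt := EX PR
theorem Asm_HX : HX_stmt := HX Asm_EX
theorem Asm_JS : JS_stmt := JS UV UH KP
theorem Asm_SI : SI_stmt := SI Asm_JS CX
theorem Asm_SO : SO_stmt := SO Asm_JS CX
theorem Asm_RC : RC_stmt := RC Asm_SI
theorem Asm_GO : GO_stmt := GO CX PO Asm_AI PR
theorem Asm_GI : GI_stmt := GI Asm_PX CX PO Asm_AI
theorem Asm_FI : FI_stmt := FI Asm_GI Asm_AC
theorem Asm_FO : FO_stmt := FO Asm_GO Asm_AC
theorem Asm_QO : QO_stmt := QO PO Asm_GO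
theorem Asm_QI : QI_stmt := QI PO Asm_GI
theorem Asm_IF : IF_stmt := IF Asm_SO CX
theorem Asm_OF : OF_stmt := OF Asm_SI CX
theorem Asm_OT : OT_stmt := OT Asm_IF Asm_SO Asm_AC OU Asm_AI PO CX
theorem Asm_TO : TO_stmt := TO Asm_SI PO Asm_AC
theorem Asm_TI : TI_stmt := TI Asm_SO CX PO Asm_AC

/-! ### Part C -/

theorem Asm_RSY : RSY_stmt := RSY Bflip
theorem Asm_RSX : RSX_stmt := RSX Asm_RSY RLM
theorem Asm_RQ0 : RQ0_stmt := RQ0 Asm_HX Asm_RSX RQD
theorem Asm_RR5 : RR5_stmt := RR5 Asm_HX Asm_RC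
theorem Asm_RR2 : RR2_stmt := RR2 Asm_RC Asm_RR5
theorem Asm_RR4 : RR4_stmt := RR4 RR1 Asm_RR2 RR3 Asm_RR5 Asm_RSY Bindep Bmarg
theorem Asm_RGP : RGP_stmt := RGP (RGD Asm_RC) Bfkg Bzero Asm_RSY RLM Asm_RSX
theorem Asm_RR6 : RR6_stmt := RR6 Asm_RQ0 Asm_RR4 Asm_RGP Asm_RSX
theorem Asm_RSW : RSW_stmt := RSW RHM Asm_RSX Asm_RR6
theorem Asm_RLP : RLP_stmt := RLP RHM Asm_RC RWP
theorem Asm_C1 : C1_stmt := C1 Asm_RLP Asm_RSW RLM RLL Bfkg Bzero Bmono
theorem Asm_C2 : C2_stmt := C2 Asm_C1 Asm_LH RLL Bindep Bmarg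

end DP
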