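import Pool.Agent.helper61.DP.Base

namespace DP

/-- A loop is connected. -/
theorem LC : LC_stmt := by
  rintro c k g ℓ S ⟨l, u, hl, -, rfl⟩ z hz z' hz'
  exact (hl.self.con_mem z hz).symm.trans (hl.self.con_mem z' hz')

end DP
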