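import Pool.Agent.helper61.DP.SpecA

/-!
# Part C of the project dp: Russo, Seymour, Welsh; loops; one arm

The modules prove `theorem XX : XX_stmt` or `theorem XX (h : YY_stmt) ... : XX_stmt`; the final
statements `C1_stmt`, `C2_stmt` are in `helper96/DP/API.lean`.
-/

namespace DP

/-! ## Crossing probabilities and symmetries -/

/-- Probability of a left to right crossing. -/
noncomputable def ph (k : Bool) (a b d e : ℤ) : ℝ := Pr (Ev fun c => hcross c k a b d e)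

/-- Probability of a bottom to top crossing. -/
noncomputable def pv (k : Bool) (a b d e : ℤ) : ℝ := Pr (Ev fun c => vcross c k a b d e)

/-- RHM. Monotonicity of crossings in the rectangle. -/
def RHM_stmt : Prop :=
  (∀ (c : V → Bool) (k : Bool) (a b d e a' b' d' e' : ℤ), a ≤ a' → a' ≤ b' → b' ≤ b → d' ≤ d →
    e ≤ e' → hcross c k a b d e → hcross c k a' b' d' e') ∧
  (∀ (c : V → Bool) (k : Bool) (a b d e a' b' d' e' : ℤ), a' ≤ a → b ≤ b' → d ≤ d' → d' ≤ e' →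
    e' ≤ e → vcross c k a b d e → vcross c k a' b' d' e')

/-- Even sites (primal vertices). -/
def prm (v : V) : Prop := v.1 % 2 = 0 ∧ v.2 % 2 = 0

/-- Odd sites (dual vertices). -/
def dul (v : V) : Prop := v.1 % 2 = 1 ∧ v.2 % 2 = 1

/-- RSY. Symmetries: bijections preserving or exchanging primal and dual vertices. -/
def RSY_stmt : Prop :=
  (∀ (φ : V ≃ V) (p : (V → Bool) → Prop) (A : Set V), Loc (Ev p) A →
    (∀ v, (prm (φ v) ↔ prm v) ∧ (dul (φ v) ↔ dul v)) →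
      Pr (Ev fun c => p fun v => c (φ v)) = Pr (Ev p)) ∧
  (∀ (φ : V ≃ V) (p : (V → Bool) → Prop) (A : Set V), Loc (Ev p) A →
    (∀ v, (prm (φ v) ↔ dul v) ∧ (dul (φ v) ↔ prm v)) →
      Pr (Ev fun c => p fun v => !(c (φ v))) = Pr (Ev p))

/-- RLM. Crossing events are local and monotone. -/
def RLM_stmt : Prop :=
  ∀ (k : Bool) (a b d e : ℤ), Loc (Ev fun c => hcross c k a b d e) (rect a b d e) ∧
    Loc (Ev fun c => vcross c k a b d e) (rect a b d e) ∧
    Mon k (Ev fun c => hcross c k a b d e) ∧ Mon k (Ev fun c => vcross c k a b d e)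

/-- RSX. Symmetries of the crossing probabilities: even translations, exchange of the coordinates,
colour flip with the translation by `(1, 1)`. -/
def RSX_stmt : Prop :=
  (∀ (k : Bool) (a b d e i j : ℤ), ph k (a + 2 * i) (b + 2 * i) (d + 2 * j) (e + 2 * j) = ph k a b d e ∧
    pv k (a + 2 * i) (b + 2 * i) (d + 2 * j) (e + 2 * j) = pv k a b d e) ∧
  (∀ (k : Bool) (a b d e : ℤ), pv k a b d e = ph k d e a b) ∧
  (∀ (k : Bool) (a b d e : ℤ), ph (!k) (a + 1) (b + 1) (d + 1) (e + 1) = ph k a b d e ∧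
    pv (!k) (a + 1) (b + 1) (d + 1) (e + 1) = pv k a b d e)

/-! ## Squares -/

/-- RQD. Crossings of the shifted square. -/
def RQD_stmt : Prop :=
  ∀ (b : V → Bool) (n : ℕ), hcross (col b) true (-1) (2 * n - 1) (-1) (2 * n - 1) →
    hcross (col b) true 0 (2 * n) 0 (2 * n)

/-- RQ0. Squares are crossed with probability at least one half. -/
def RQ0_stmt : Prop := ∀ n : ℕ, 1 / 2 ≤ ph true 0 (2 * n) 0 (2 * n)

/-! ## The step of Bollobas and Riordan -/

/-- White sites of `[0, a] × [0, h]` connected to the left side. -/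
def WL (c : V → Bool) (a h : ℤ) : Set V :=
  {v | ∃ u : V, u.1 = 0 ∧ Conn c false (rect 0 a 0 h) u v}

/-- Sites revealed by the exploration of the white clusters of the left side. -/
def RV (c : V → Bool) (a h : ℤ) : Set V :=
  {v | v ∈ rect 0 a 0 h ∧ (v.1 = 0 ∨ v ∈ WL c a h ∨ ∃ w ∈ WL c a h, Adj w v)}

/-- Reflection in the row `h`. -/
def rf (h : ℤ) (v : V) : V := (v.1, 2 * h - v.2)

/-- A black path from a site next to `X` to the right side of `[0, b] × [0, 2 h]` avoiding `X` and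
its mirror image (or `X` contains a site of the right side). -/
def FX (c : V → Bool) (X : Set V) (b h : ℤ) : Prop :=
  ∃ v ∈ X, v.1 = b ∨ ∃ w y : V, Adj v w ∧ y.1 = b ∧
    Conn c true {z | z ∈ rect 0 b 0 (2 * h) ∧ z ∉ X ∧ rf h z ∉ X} w y

/-- A black vertical crossing of `[0, a] × [0, h]` which is connected to the right side of
`[0, b] × [0, 2 h]`. -/
def EV (c : V → Bool) (a b h : ℤ) : Prop :=
  ∃ u t y : V, u.2 = 0 ∧ t.2 = h ∧ y.1 = b ∧ Conn c true (rect 0 a 0 h) u t ∧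
    Conn c true (rect 0 b 0 (2 * h)) u y

/-- RR1. The revealed set is determined by the colours of its sites. -/
def RR1_stmt : Prop :=
  ∀ (c c' : V → Bool) (a h : ℤ), 0 ≤ a → 0 ≤ h → (∀ v ∈ RV c a h, c v = c' v) →
    RV c' a h = RV c a h

/-- RR5. If there is a black vertical crossing, there is one among the revealed sites. -/
def RR5_stmt : Prop :=
  ∀ (c : V → Bool) (a h : ℤ), 0 ≤ a → 0 ≤ h → vcross c true 0 a 0 h →
    ∃ u t : V, u.2 = 0 ∧ t.2 = h ∧ Conn c true (RV c a h) u t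

/-- RR2. Connection of the crossing to the right side. -/
def RR2_stmt : Prop :=
  ∀ (c : V → Bool) (a b h : ℤ), 0 ≤ a → a ≤ b → 0 ≤ h → vcross c true 0 a 0 h →
    FX c (RV c a h) b h → EV c a b h

/-- RR3. A crossing of the large rectangle or its mirror image leaves the revealed set. -/
def RR3_stmt : Prop :=
  ∀ (c c' : V → Bool) (a b h : ℤ), 0 ≤ a → a ≤ b → 0 ≤ h → hcross c' true 0 b 0 (2 * h) →
    FX c' (RV c a h) b h ∨ FX (fun v => c' (rf h v)) (RV c a h) b h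

/-- RR4. The probabilistic step. -/
def RR4_stmt : Prop :=
  ∀ a b h : ℤ, 0 ≤ a → a ≤ b → 0 ≤ h →
    pv true 0 a 0 h * (ph true 0 b 0 (2 * h) / 2) ≤ Pr (Ev fun c => EV c a b h)

/-- RGD. Gluing, deterministic. -/
def RGD_stmt : Prop :=
  ∀ (c : V → Bool) (a b h : ℤ), Even a → 0 ≤ a → a ≤ b → 0 ≤ h → EV c a b h →
    EV (fun v => c (a - v.1, v.2)) a b h → hcross c true 0 a 0 h →
      hcross c true (a - b) b 0 (2 * h)

/-- RGP. Gluing. -/
def RGP_stmt : Prop :=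
  ∀ a b h : ℤ, Even a → Even b → 0 ≤ a → a ≤ b → 0 ≤ h →
    Pr (Ev fun c => EV c a b h) ^ 2 * ph true 0 a 0 h ≤ ph true 0 (2 * b - a) 0 (2 * h)

/-- RR6. Long rectangles. -/
def RR6_stmt : Prop :=
  ∃ c : ℝ, 0 < c ∧ ∀ n : ℕ, 1 ≤ n → c ≤ ph true 0 (18 * n) 0 (4 * n)

/-- RSW. All rectangles of bounded aspect ratio and both colours. -/
def RSW_stmt : Prop :=
  ∃ c : ℝ, 0 < c ∧ ∃ L : ℤ, 0 < L ∧ ∀ (k : Bool) (a b d e : ℤ), a ≤ b → d ≤ e →
    (L ≤ e - d → b - a ≤ 4 * (e - d) → c ≤ ph k a b d e) ∧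
    (L ≤ b - a → e - d ≤ 4 * (b - a) → c ≤ pv k a b d e)

/-! ## Loops -/

/-- RWP. Crossing parity of paths: above `g`, away from the half line above `g`, concatenation. -/
def RWP_stmt : Prop :=
  (∀ (l : List V) (g u v : V), l.head? = some u → l.getLast? = some v → l.IsChain Adj →
    (∀ w ∈ l, g.2 < w.2) → (upCross g l + i01 (u.1 ≤ g.1) + i01 (v.1 ≤ g.1)) % 2 = 0) ∧
  (∀ (l : List V) (g : V), (∀ w ∈ l, ¬ (w.1 = g.1 ∧ g.2 < w.2)) → upCross g l = 0) ∧
  (∀ (W : Set V) (l l' : List V) (g u v w : V), IsPath W l u v → IsPath W l' v w →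
    IsPath W (l ++ l'.tail) u w ∧ upCross g (l ++ l'.tail) = upCross g l + upCross g l')

/-- RLP. Four crossings contain a loop. -/
def RLP_stmt : Prop :=
  ∀ (c : V → Bool) (k : Bool) (g : V) (ℓ : ℕ), 1 ≤ ℓ →
    hcross c k (g.1 - 3 * ℓ + 1) (g.1 + 3 * ℓ - 1) (g.2 + ℓ + 1) (g.2 + 3 * ℓ - 1) →
    hcross c k (g.1 - 3 * ℓ + 1) (g.1 + 3 * ℓ - 1) (g.2 - 3 * ℓ + 1) (g.2 - ℓ - 1) →
    vcross c k (g.1 + ℓ + 1) (g.1 + 3 * ℓ - 1) (g.2 - 3 * ℓ + 1) (g.2 + 3 * ℓ - 1) →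
    vcross c k (g.1 - 3 * ℓ + 1) (g.1 - ℓ - 1) (g.2 - 3 * ℓ + 1) (g.2 + 3 * ℓ - 1) →
      ∃ S, Loop c k g ℓ S

/-- RLL. The loop event is local and monotone. -/
def RLL_stmt : Prop :=
  ∀ (k : Bool) (g : V) (ℓ : ℕ),
    Loc (Ev fun c => ∃ S, Loop c k g ℓ S) {v | ℓ < sd g v ∧ sd g v < 3 * ℓ} ∧
      Mon k (Ev fun c => ∃ S, Loop c k g ℓ S)

end DP
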